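import Pool.Agent.Lib.MP_6bc78b_nt.GP.H68.High8c

/-! Project GP8 (MP_6bc78b_nt), row HIGH8: some block of the large scale is large. -/

set_option autoImplicit false

open Complex Filter Topology MeasureTheory Set
open scoped ENNReal

namespace Pool.Agent.Lib.MP_6bc78b_nt.GP.H68

open Pool.Agent.Lib.MP_6bc78b_nt.MS Pool.Agent.Lib.MP_6bc78b_nt.MS.P1
  Pool.Agent.Lib.MP_6bc78b_nt.GP.G7 Pool.Agent.Lib.MP_6bc78b_nt.GP.G8

theorem sq3 (x y z : ℝ) : (x + y + z) ^ 2 ≤ 3 * x ^ 2 + 3 * y ^ 2 + 3 * z ^ 2 := by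
  nlinarith [sq_nonneg (x - y), sq_nonneg (x - z), sq_nonneg (y - z)]

theorem one_add_le_sq {T : ℝ} (hT : 10 < T) : 1 + T ≤ T ^ 2 := by nlinarith

theorem num_Ct {A B C L Ct : ℝ} (hA : 0 ≤ A) (hCt : Ct = A + 3 * B + 3 * C + 1)
    (hL : 1 ≤ L) : A + (3 * (B * L) + (3 * (C * L) + 1)) ≤ Ct * L := by
  rw [hCt]
  nlinarith

theorem far_num {X Y : ℝ} (h : Y ≤ X) : -X ≤ -(Y / 2) + -(X / 2) := by linarith

/-- The mean value with `c = 1`: the mass of the weight. -/
theorem mass {C0 : ℝ} (hmv : ∀ (N : ℕ) (c : ℕ → ℂ) (b : ℝ), 0 < b → b ≤ 1 →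
    ∫⁻ t : ℝ, ENNReal.ofReal (‖DP c N t‖ ^ 2 * Real.exp (-(b * |t|))) ≤
      ENNReal.ofReal (C0 * ∑ n ∈ Finset.Icc 1 N, (1 / b + n) * ‖c n‖ ^ 2 / (n : ℝ) ^ 2))
    {b : ℝ} (hb : 0 < b) (hb1 : b ≤ 1) :
    ∫⁻ t : ℝ, ENNReal.ofReal (Real.exp (-(b * |t|))) ≤ ENNReal.ofReal (C0 * (1 / b + 1)) := by
  have h := hmv 1 (fun _ => 1) b hb hb1
  simpa [DP] using h

/-- One term of the main part. -/
theorem one_term {C' : ℝ} (hcm : ∀ (P Q b : ℝ) (k L1 L2 : ℕ), 2 ≤ P → P < Q →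
    0 < b → b ≤ 1 → (L2 : ℝ) * Q ^ k ≤ 1 / b →
    ∫⁻ t : ℝ, ENNReal.ofReal (‖(∑ l ∈ Finset.Ioc L1 L2, (l : ℂ) ^ (-(1 + t * I : ℂ))) *
      Qp P Q t ^ k‖ ^ 2 * Real.exp (-(b * |t|))) ≤
    ENNReal.ofReal (C' / b * (4 * k / P) ^ k * (1 + Real.log (1 + L1)) / (1 + L1)))
    (hC' : 0 < C') {a ε η κ T h C1 F : ℝ} {K j v : ℕ} (ha : 0 < a) (hε : 0 < ε) (hε1 : ε < 1)
    (hη : 0 < η) (hκ : 0 < κ) (hκ1 : κ ≤ 1 / 2) (hF : 0 ≤ F) (hh : 1 ≤ h)
    (hh2 : h ≤ Real.log T ^ 2) (hT : 10 < T) (hL : 1 ≤ Real.log T)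
    (hx : 230 ≤ Real.log (Real.log T)) (haL : a ≤ ε * Real.log T)
    (hQ : Real.log T ^ 3 * QQ (8 * (K + 2)) T ^ H78.kk T ≤ T ^ η) 
    (haT : a * Real.log T ^ 2 ≤ T) (hj : j ∈ js η T) (hv : v < nb (PB T) κ K) :
    ENNReal.ofReal (3 * (F * (C1 * Real.log T ^ 4) ^ 2 * Real.exp (-((j : ℝ) / Real.log T)) /
        VB κ T v ^ H78.kk T)) *
      ∫⁻ t : ℝ, ENNReal.ofReal (‖H92D.Zj (ε * T) (T / ε) T j t * Qb (PB T) κ v t ^ H78.kk T‖ ^ 2 *
        Real.exp (-(a * h / T * |t|))) ≤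
      ENNReal.ofReal (3 * (F * (3 * C1 ^ 2 * C' / (a * ε)) / Real.log T ^ 11)) := by
  set L := Real.log T with hLdef
  have hL0 : 0 < L := by linarith
  have hT0 : 0 < T := by linarith
  have hP16 : PB T = Real.log (Real.log T) ^ 16 := rfl
  have hP2 : 2 ≤ PB T := by
    rw [hP16]
    calc (2 : ℝ) ≤ Real.log (Real.log T) ^ 1 := by
          rw [pow_one]
          linarith
      _ ≤ _ := pow_le_pow_right₀ (by linarith) (by norm_num)
  have hP0 : 0 < PB T := by linarith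
  have hy := yb_ge hP0.le hκ.le v
  have hy0 : 0 < yb (PB T) κ v := by linarith
  have hyy : yb (PB T) κ v < yb (PB T) κ (v + 1) := by
    unfold yb
    gcongr
    push_cast
    linarith
  have hb0 : 0 < a * h / T := by positivity
  have hb1 : a * h / T ≤ 1 := by
    rw [div_le_one hT0]
    calc a * h ≤ a * L ^ 2 := by gcongr
      _ ≤ T := haT
  have hah : a ≤ a * h := le_mul_of_one_le_right ha.le hh
  have hbT : 1 / (a * h / T) ≤ T / a := by
    rw [one_div_div]
    exact div_le_div_of_nonneg_left hT0.le ha hah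
  have hjη : η * L ≤ (j : ℝ) / L := by
    unfold js at hj
    have h1 := (Finset.mem_Ico.1 hj).1
    have h2 : η * L ^ 2 ≤ (j : ℝ) := (Nat.le_ceil _).trans (by exact_mod_cast h1)
    rw [le_div_iff₀ hL0, mul_assoc, ← sq]
    exact h2
  have hxj : T ^ η ≤ Real.exp ((j : ℝ) / L) := by
    rw [Real.rpow_def_of_pos hT0]
    refine Real.exp_le_exp.2 ?_
    rw [← hLdef]
    linarith
  have hxj1 : 1 ≤ Real.exp ((j : ℝ) / L) := Real.one_le_exp (by positivity)
  have hxj0 := Real.exp_pos ((j : ℝ) / L)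
  have hTη : 0 < T ^ η := Real.rpow_pos_of_pos hT0 _
  set k := H78.kk T with hk
  have hQk := yb_le (K := K) hκ hκ1 hx hv
  have hy1 : 0 ≤ yb (PB T) κ (v + 1) := by linarith
  have hcond : ((⌊T / ε / Real.exp ((j : ℝ) / L)⌋₊ : ℕ) : ℝ) * yb (PB T) κ (v + 1) ^ k ≤
      1 / (a * h / T) := by
    have h1 : ((⌊T / ε / Real.exp ((j : ℝ) / L)⌋₊ : ℕ) : ℝ) ≤ T / ε / T ^ η :=
      (Nat.floor_le (by positivity)).trans (by gcongr)
    have h2 : yb (PB T) κ (v + 1) ^ k ≤ T ^ η / L ^ 3 := by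
      rw [le_div_iff₀ (by positivity)]
      calc yb (PB T) κ (v + 1) ^ k * L ^ 3 ≤ QQ (8 * (K + 2)) T ^ k * L ^ 3 := by gcongr
        _ ≤ T ^ η := by linarith
    calc _ ≤ T / ε / T ^ η * (T ^ η / L ^ 3) := by
          apply mul_le_mul h1 h2 (pow_nonneg hy1 _) (by positivity)
      _ = T / (ε * L ^ 3) := by field_simp
      _ ≤ T / (a * h) := by
          refine div_le_div_of_nonneg_left hT0.le (by positivity) ?_
          calc a * h ≤ (ε * L) * L ^ 2 := by gcongr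
            _ = ε * L ^ 3 := by ring
      _ = _ := by rw [one_div_div]
  have hmain := hcm (yb (PB T) κ v) (yb (PB T) κ (v + 1)) (a * h / T) k
    ⌊ε * T / Real.exp ((j : ℝ) / L)⌋₊ ⌊T / ε / Real.exp ((j : ℝ) / L)⌋₊ (by linarith) hyy
    hb0 hb1 hcond
  have hV := VB_pos (κ := κ) hP0 v
  have hL1 : ε * T / Real.exp ((j : ℝ) / L) ≤
      1 + ((⌊ε * T / Real.exp ((j : ℝ) / L)⌋₊ : ℕ) : ℝ) := by
    have := (Nat.lt_floor_add_one (ε * T / Real.exp ((j : ℝ) / L))).le
    linarith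
  have hlog : 1 + Real.log (1 + ((⌊ε * T / Real.exp ((j : ℝ) / L)⌋₊ : ℕ) : ℝ)) ≤ 3 * L := by
    have h1 : ((⌊ε * T / Real.exp ((j : ℝ) / L)⌋₊ : ℕ) : ℝ) ≤ T := by
      refine (Nat.floor_le (by positivity)).trans ?_
      rw [div_le_iff₀ hxj0]
      calc ε * T ≤ 1 * T := by gcongr
        _ = T * 1 := by ring
        _ ≤ T * Real.exp ((j : ℝ) / L) := by gcongr
    have h2 : Real.log (1 + ((⌊ε * T / Real.exp ((j : ℝ) / L)⌋₊ : ℕ) : ℝ)) ≤
        Real.log (T ^ 2) := by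
      refine Real.log_le_log (by positivity) ?_
      exact (add_le_add_right h1 1).trans (one_add_le_sq hT)
    rw [Real.log_pow, ← hLdef] at h2
    have h3 : ((2 : ℕ) : ℝ) * L = 2 * L := by norm_num
    rw [h3] at h2
    linarith
  have hterm := term_bd (L := L) (T := T) (a := a) (ε := ε) (b' := a * h / T) (C1 := C1)
    (C' := C') (F := F) (y := yb (PB T) κ v) (V := VB κ T v) (j := j) (k := k)
    (L1 := ⌊ε * T / Real.exp ((j : ℝ) / L)⌋₊) hL hT0 ha hε hb0 hbT hC' hF hy0 hV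
    (VB_bound v hκ.le hL hx) hlog hL1
  calc _ ≤ ENNReal.ofReal (3 * (F * (C1 * L ^ 4) ^ 2 * Real.exp (-((j : ℝ) / L)) /
        VB κ T v ^ k)) *
        ENNReal.ofReal (C' / (a * h / T) * (4 * k / yb (PB T) κ v) ^ k *
          (1 + Real.log (1 + ((⌊ε * T / Real.exp ((j : ℝ) / L)⌋₊ : ℕ) : ℝ))) /
          (1 + ((⌊ε * T / Real.exp ((j : ℝ) / L)⌋₊ : ℕ) : ℝ))) := by
        gcongr
        exact hmain
    _ ≤ _ := by
        rw [← ENNReal.ofReal_mul (by positivity)]
        refine ENNReal.ofReal_le_ofReal ?_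
        rw [mul_assoc]
        gcongr

/-- HIGH8. -/
theorem high8 (hP : PRBXStatement) (hC : CMBXStatement) (hM : MVTXStatement)
    (hB : BASXStatement) : HIGH8Statement := by
  intro hRH a b ε η κ δ K ha _ hε hε1 hη _ hκ hκ1 hδ _
  obtain ⟨C1, T1, hC1, hT1, hprb⟩ := hP hRH
  obtain ⟨C', hC', hcm⟩ := hC
  obtain ⟨C2, hC2, hbig⟩ := bigj hM hB a ε ha hε hε1
  obtain ⟨C3, hC3, hdec⟩ := H92D.dec_bound hM hB
  obtain ⟨C0, hC0, hmv⟩ := hM
  set Ct : ℝ := 27 * (3 * C1 ^ 2 * C' / (a * ε)) + 3 * C2 + 3 * (C3 * (1 + 1 / (a * ε))) + 1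
    with hCt
  obtain ⟨T0, hev⟩ := eventually_atTop.1 (ev_all a ε η κ δ Ct C0 K ha hε hη hδ)
  refine ⟨max T0 T1 + 1, by linarith [le_max_right T0 T1], fun T h hT hh hh2 => ?_⟩
  obtain ⟨hT10, hL, hx, hnb, haL, hQ, hCtL, htail, hLε, hTε, haT⟩ :=
    hev T (by linarith [le_max_left T0 T1])
  have hTT1 : T1 ≤ T := by linarith [le_max_right T0 T1]
  set L := Real.log T with hLdef
  have hL0 : 0 < L := by linarith
  have hT0 : 0 < T := by linarith
  have hb0 : 0 < a * h / T := by positivity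
  have hb1 : a * h / T ≤ 1 := by
    rw [div_le_one hT0]
    calc a * h ≤ a * L ^ 2 := by gcongr
      _ ≤ T := haT
  have hah : a ≤ a * h := le_mul_of_one_le_right ha.le hh
  have haTb : a / T ≤ a * h / T := div_le_div_of_nonneg_right hah hT0.le
  -- the index sets
  set J := (js η T).filter (fun j : ℕ => (j : ℝ) ≤ L ^ 2) with hJ
  set J' := (js η T).filter (fun j : ℕ => ¬ (j : ℝ) ≤ L ^ 2) with hJ'
  have hcard : (J.card : ℝ) ≤ 3 * L ^ 2 := by
    refine le_trans ?_ (js_card (η := η) hL)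
    exact_mod_cast Finset.card_le_card (Finset.filter_subset _ _)
  -- the four majorants
  set wt : ℝ → ℝ := fun t => Real.exp (-(a * h / T * |t|)) with hwt
  set co : ℕ → ℕ → ℝ := fun j v => (J.card : ℝ) * (C1 * L ^ 4) ^ 2 *
    Real.exp (-((j : ℝ) / L)) / VB κ T v ^ H78.kk T with hco
  set G1 : ℝ → ℝ≥0∞ := fun t => ∑ j ∈ J, ∑ v ∈ Finset.range (nb (PB T) κ K),
    ENNReal.ofReal (3 * co j v) * ENNReal.ofReal
      (‖H92D.Zj (ε * T) (T / ε) T j t * Qb (PB T) κ v t ^ H78.kk T‖ ^ 2 * wt t) with hG1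
  set G2 : ℝ → ℝ≥0∞ := fun t => ENNReal.ofReal 3 * ENNReal.ofReal
    (‖∑ j ∈ J', Rj T j t * H92D.Zj (ε * T) (T / ε) T j t‖ ^ 2 * wt t) with hG2
  set G3 : ℝ → ℝ≥0∞ := fun t => ENNReal.ofReal 3 * ENNReal.ofReal
    (‖Dp ε η T t - H92D.Mj η (ε * T) (T / ε) T t‖ ^ 2 * wt t) with hG3
  set G4 : ℝ → ℝ≥0∞ := fun t => ENNReal.ofReal (((T / ε) ^ 2) ^ 2 * Real.exp (-(a * T / 2))) *
    ENNReal.ofReal (Real.exp (-(a * h / T / 2 * |t|))) with hG4
  have hPB0 : 0 < PB T := by
    have : PB T = Real.log (Real.log T) ^ 16 := rfl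
    rw [this]
    have : 0 < Real.log (Real.log T) := by linarith
    positivity
  have hcont_wt : Continuous wt := by
    rw [hwt]
    fun_prop
  have hcontQ : ∀ v : ℕ, Continuous fun t : ℝ => Qb (PB T) κ v t := fun v => by
    unfold Qb
    exact cont_Qp _ _
  have hmeas1 : ∀ j v : ℕ, Measurable fun t : ℝ => ENNReal.ofReal (3 * co j v) * ENNReal.ofReal
      (‖H92D.Zj (ε * T) (T / ε) T j t * Qb (PB T) κ v t ^ H78.kk T‖ ^ 2 * wt t) := by
    intro j v
    have h1 : Continuous fun t : ℝ =>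
        ‖H92D.Zj (ε * T) (T / ε) T j t * Qb (PB T) κ v t ^ H78.kk T‖ ^ 2 * wt t :=
      ((((cont_Zj _ _ _ _).mul ((hcontQ v).pow _)).norm).pow 2).mul hcont_wt
    exact (h1.measurable.ennreal_ofReal).const_mul _
  have hG1m : Measurable G1 := by
    rw [hG1]
    refine Finset.measurable_sum _ fun j _ => Finset.measurable_sum _ fun v _ => hmeas1 j v
  have hG2m : Measurable G2 := by
    have h1 : Continuous fun t : ℝ =>
        ‖∑ j ∈ J', Rj T j t * H92D.Zj (ε * T) (T / ε) T j t‖ ^ 2 * wt t :=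
      (((continuous_finsetSum _ fun j _ => (cont_Rj T j).mul (cont_Zj _ _ _ _)).norm).pow 2).mul
        hcont_wt
    exact (h1.measurable.ennreal_ofReal).const_mul _
  have hG3m : Measurable G3 := by
    have h1 : Continuous fun t : ℝ => Dp ε η T t := by
      unfold Dp
      exact cont_sum _ _ fun n hn => by
        have := (Finset.mem_Ioc.1 hn).1
        omega
    have h2 : Continuous fun t : ℝ => H92D.Mj η (ε * T) (T / ε) T t := by
      unfold H92D.Mj
      exact continuous_finsetSum _ fun j _ => (cont_Rj T j).mul (cont_Zj _ _ _ _)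
    have h3 : Continuous fun t : ℝ =>
        ‖Dp ε η T t - H92D.Mj η (ε * T) (T / ε) T t‖ ^ 2 * wt t :=
      (((h1.sub h2).norm).pow 2).mul hcont_wt
    exact (h3.measurable.ennreal_ofReal).const_mul _
  have hG4m : Measurable G4 := by
    have h1 : Continuous fun t : ℝ => Real.exp (-(a * h / T / 2 * |t|)) := by fun_prop
    exact (h1.measurable.ennreal_ofReal).const_mul _
  -- the pointwise bound
  have hpt : ∀ t ∈ {t : ℝ | T / L ^ 6 < |t| ∧
      ∃ v < nb (PB T) κ K, VB κ T v < ‖Qb (PB T) κ v t‖ ^ 2},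
      ENNReal.ofReal (‖Dp ε η T t‖ ^ 2 * rho a b T (L ^ 2) h t) ≤
        G1 t + (G2 t + (G3 t + G4 t)) := by
    intro t ht
    obtain ⟨ht1, ht2⟩ := ht
    have hrho : rho a b T (L ^ 2) h t ≤ wt t := by
      unfold rho
      calc _ ≤ 1 * Real.exp (-(a * h / T * |t|)) := by
            gcongr
            exact min_le_left _ _
        _ = _ := one_mul _
    have hwt0 : 0 < wt t := Real.exp_pos _
    by_cases hbigt : |t| ≤ T ^ 2
    · -- the main range
      have hsplit : Dp ε η T t = (∑ j ∈ J, Rj T j t * H92D.Zj (ε * T) (T / ε) T j t) +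
          (∑ j ∈ J', Rj T j t * H92D.Zj (ε * T) (T / ε) T j t) +
          (Dp ε η T t - H92D.Mj η (ε * T) (T / ε) T t) := by
        have h1 : H92D.Mj η (ε * T) (T / ε) T t =
            (∑ j ∈ J, Rj T j t * H92D.Zj (ε * T) (T / ε) T j t) +
            (∑ j ∈ J', Rj T j t * H92D.Zj (ε * T) (T / ε) T j t) := by
          unfold H92D.Mj
          rw [hJ, hJ', Finset.sum_filter_add_sum_filter_not]
        rw [← h1]
        ring
      set u := ∑ j ∈ J, Rj T j t * H92D.Zj (ε * T) (T / ε) T j t with hu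
      set w := ∑ j ∈ J', Rj T j t * H92D.Zj (ε * T) (T / ε) T j t with hw
      set e := Dp ε η T t - H92D.Mj η (ε * T) (T / ε) T t with he
      have h3 : ‖Dp ε η T t‖ ^ 2 ≤ 3 * ‖u‖ ^ 2 + 3 * ‖w‖ ^ 2 + 3 * ‖e‖ ^ 2 := by
        have h4 : ‖Dp ε η T t‖ ≤ ‖u‖ + ‖w‖ + ‖e‖ := by
          rw [hsplit]
          exact norm_add₃_le
        have h5 : ‖Dp ε η T t‖ ^ 2 ≤ (‖u‖ + ‖w‖ + ‖e‖) ^ 2 :=
          pow_le_pow_left₀ (norm_nonneg _) h4 2
        exact h5.trans (sq3 _ _ _)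
      have hR : ∀ j ∈ J, ‖Rj T j t‖ ≤ C1 * L ^ 4 * Real.exp (-((j : ℝ) / (2 * L))) := by
        intro j hj
        rw [hJ, Finset.mem_filter] at hj
        have hj1 : 1 ≤ j := by
          have h4 := (Finset.mem_Ico.1 hj.1).1
          have h5 : 0 < η * L ^ 2 := by positivity
          have h6 : 0 < ⌈η * L ^ 2⌉₊ := Nat.ceil_pos.2 h5
          exact le_trans h6 h4
        refine hprb T t j hTT1 ht1.le hbigt hj1 ?_
        rw [div_le_iff₀ hL0, ← sq]
        exact hj.2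
      have h6 := small_pt J (fun j => Rj T j t) (fun j => H92D.Zj (ε * T) (T / ε) T j t)
        (fun v => Qb (PB T) κ v t) hR (VB κ T) (fun v => VB_pos hPB0 v) (nb (PB T) κ K)
        (H78.kk T) ht2
      have h7 : ENNReal.ofReal (3 * ‖u‖ ^ 2 * wt t) ≤ G1 t := by
        have h8 : 3 * ‖u‖ ^ 2 * wt t ≤ ∑ j ∈ J, ∑ v ∈ Finset.range (nb (PB T) κ K),
            3 * co j v *
              (‖H92D.Zj (ε * T) (T / ε) T j t * Qb (PB T) κ v t ^ H78.kk T‖ ^ 2 * wt t) := by
          calc 3 * ‖u‖ ^ 2 * wt t ≤ 3 * (∑ j ∈ J, ∑ v ∈ Finset.range (nb (PB T) κ K),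
              co j v * ‖H92D.Zj (ε * T) (T / ε) T j t * Qb (PB T) κ v t ^ H78.kk T‖ ^ 2) *
              wt t := by gcongr
            _ = _ := by
              rw [Finset.mul_sum, Finset.sum_mul]
              refine Finset.sum_congr rfl fun j _ => ?_
              rw [Finset.mul_sum, Finset.sum_mul]
              refine Finset.sum_congr rfl fun v _ => ?_
              ring
        have hco0 : ∀ j v : ℕ, 0 ≤ co j v := fun j v => by
          have hV := VB_pos (κ := κ) hPB0 v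
          exact div_nonneg (mul_nonneg (mul_nonneg (Nat.cast_nonneg _) (sq_nonneg _))
            (Real.exp_pos _).le) (pow_nonneg hV.le _)
        have hnn : ∀ j v : ℕ, 0 ≤ 3 * co j v *
            (‖H92D.Zj (ε * T) (T / ε) T j t * Qb (PB T) κ v t ^ H78.kk T‖ ^ 2 * wt t) :=
          fun j v => mul_nonneg (mul_nonneg (by norm_num) (hco0 j v))
            (mul_nonneg (sq_nonneg _) hwt0.le)
        refine (ENNReal.ofReal_le_ofReal h8).trans (le_of_eq ?_)
        rw [ENNReal.ofReal_sum_of_nonneg fun j _ => Finset.sum_nonneg fun v _ => hnn j v]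
        refine Finset.sum_congr rfl fun j _ => ?_
        rw [ENNReal.ofReal_sum_of_nonneg fun v _ => hnn j v]
        refine Finset.sum_congr rfl fun v _ => ?_
        rw [ENNReal.ofReal_mul (mul_nonneg (by norm_num) (hco0 j v))]
      calc ENNReal.ofReal (‖Dp ε η T t‖ ^ 2 * rho a b T (L ^ 2) h t)
          ≤ ENNReal.ofReal (3 * ‖u‖ ^ 2 * wt t + (3 * (‖w‖ ^ 2 * wt t) +
            3 * (‖e‖ ^ 2 * wt t))) := by
            refine ENNReal.ofReal_le_ofReal ?_
            calc ‖Dp ε η T t‖ ^ 2 * rho a b T (L ^ 2) h t ≤ ‖Dp ε η T t‖ ^ 2 * wt t := by gcongr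
              _ ≤ (3 * ‖u‖ ^ 2 + 3 * ‖w‖ ^ 2 + 3 * ‖e‖ ^ 2) * wt t := by gcongr
              _ = _ := by ring
        _ = ENNReal.ofReal (3 * ‖u‖ ^ 2 * wt t) + (G2 t + G3 t) := by
            rw [ENNReal.ofReal_add (by positivity) (by positivity),
              ENNReal.ofReal_add (by positivity) (by positivity),
              ENNReal.ofReal_mul (p := 3) (by norm_num), ENNReal.ofReal_mul (p := 3) (by norm_num)]
        _ ≤ G1 t + (G2 t + (G3 t + G4 t)) := by
            gcongr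
            exact le_self_add
    · -- the far range
      rw [not_le] at hbigt
      have hD := Dp_crude hB (ε := ε) (η := η) (T := T) (by linarith) hη hε t
      have h1 : wt t ≤ Real.exp (-(a * T / 2)) * Real.exp (-(a * h / T / 2 * |t|)) := by
        rw [hwt, ← Real.exp_add]
        refine Real.exp_le_exp.2 ?_
        have h2 : a * T ≤ a * h / T * |t| := by
          calc a * T = a / T * T ^ 2 := by field_simp
            _ ≤ a * h / T * |t| := by
              apply mul_le_mul haTb hbigt.le (by positivity) (by positivity)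
        have h3 : a * h / T / 2 * |t| = a * h / T * |t| / 2 := by ring
        rw [h3]
        exact far_num h2
      calc ENNReal.ofReal (‖Dp ε η T t‖ ^ 2 * rho a b T (L ^ 2) h t)
          ≤ ENNReal.ofReal ((((T / ε) ^ 2) ^ 2 * Real.exp (-(a * T / 2))) *
            Real.exp (-(a * h / T / 2 * |t|))) := by
            refine ENNReal.ofReal_le_ofReal ?_
            calc ‖Dp ε η T t‖ ^ 2 * rho a b T (L ^ 2) h t
                ≤ ‖Dp ε η T t‖ ^ 2 * wt t := by gcongr
              _ ≤ ((T / ε) ^ 2) ^ 2 *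
                (Real.exp (-(a * T / 2)) * Real.exp (-(a * h / T / 2 * |t|))) := by gcongr
              _ = _ := by ring
        _ = G4 t := by rw [ENNReal.ofReal_mul (by positivity)]
        _ ≤ G1 t + (G2 t + (G3 t + G4 t)) := by
            calc G4 t ≤ G3 t + G4 t := le_add_self
              _ ≤ G2 t + (G3 t + G4 t) := le_add_self
              _ ≤ _ := le_add_self
  -- the integrals
  have hI1 : ∫⁻ t : ℝ, G1 t ≤ ENNReal.ofReal (27 * (3 * C1 ^ 2 * C' / (a * ε))) := by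
    set U : ℝ := 3 * ((J.card : ℝ) * (3 * C1 ^ 2 * C' / (a * ε)) / L ^ 11) with hU
    have hU0 : 0 ≤ U := by positivity
    calc ∫⁻ t : ℝ, G1 t = ∑ j ∈ J, ∑ v ∈ Finset.range (nb (PB T) κ K),
        ENNReal.ofReal (3 * co j v) * ∫⁻ t : ℝ, ENNReal.ofReal
          (‖H92D.Zj (ε * T) (T / ε) T j t * Qb (PB T) κ v t ^ H78.kk T‖ ^ 2 * wt t) := by
          rw [hG1, lintegral_finsetSum _ fun j _ =>
            Finset.measurable_sum _ fun v _ => hmeas1 j v]
          refine Finset.sum_congr rfl fun j _ => ?_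
          rw [lintegral_finsetSum _ fun v _ => hmeas1 j v]
          refine Finset.sum_congr rfl fun v _ => ?_
          rw [lintegral_const_mul' _ _ ENNReal.ofReal_ne_top]
      _ ≤ ∑ j ∈ J, ∑ v ∈ Finset.range (nb (PB T) κ K), ENNReal.ofReal U := by
          refine Finset.sum_le_sum fun j hj => Finset.sum_le_sum fun v hv => ?_
          exact one_term hcm hC' ha hε hε1 hη hκ hκ1 (by positivity) hh hh2 hT10 hL hx haL hQ haT
            (Finset.mem_filter.1 hj).1 (Finset.mem_range.1 hv)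
      _ = ENNReal.ofReal ((J.card : ℝ) * ((nb (PB T) κ K : ℝ) * U)) := by
          rw [Finset.sum_const, Finset.sum_const, Finset.card_range, nsmul_eq_mul, nsmul_eq_mul,
            ENNReal.ofReal_mul (p := (J.card : ℝ)) (by positivity),
            ENNReal.ofReal_mul (p := (nb (PB T) κ K : ℝ)) (q := U) (by positivity),
            ENNReal.ofReal_natCast, ENNReal.ofReal_natCast]
      _ ≤ _ := by
          refine ENNReal.ofReal_le_ofReal ?_
          have hX : 0 ≤ 3 * C1 ^ 2 * C' / (a * ε) := by positivity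
          calc (J.card : ℝ) * ((nb (PB T) κ K : ℝ) * U)
              ≤ (3 * L ^ 2) * (L * (3 * ((3 * L ^ 2) * (3 * C1 ^ 2 * C' / (a * ε)) / L ^ 11))) := by
                rw [hU]
                gcongr
            _ = 27 * (3 * C1 ^ 2 * C' / (a * ε)) * (1 / L ^ 6) := by
                field_simp
                ring
            _ ≤ 27 * (3 * C1 ^ 2 * C' / (a * ε)) * 1 := by
                gcongr
                rw [div_le_one (by positivity)]
                exact one_le_pow₀ hL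
            _ = _ := mul_one _
  have hI2 : ∫⁻ t : ℝ, G2 t ≤ ENNReal.ofReal (3 * (C2 * L ^ 3)) := by
    rw [hG2, lintegral_const_mul' _ _ ENNReal.ofReal_ne_top,
      ENNReal.ofReal_mul (p := 3) (by norm_num)]
    gcongr
    refine hbig η T (a * h / T) J' (by linarith) hTε hη haTb hb1 (Finset.filter_subset _ _) ?_
    intro j hj
    exact not_le.1 (Finset.mem_filter.1 hj).2
  have hI3 : ∫⁻ t : ℝ, G3 t ≤ ENNReal.ofReal (3 * (C3 * (1 + 1 / (a * ε)) * L ^ 3)) := by
    rw [hG3, lintegral_const_mul' _ _ ENNReal.ofReal_ne_top,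
      ENNReal.ofReal_mul (p := 3) (by norm_num)]
    gcongr
    have hAA : ε * T ≤ T / ε := by
      rw [le_div_iff₀ hε]
      calc ε * T * ε ≤ 1 * T * 1 := by gcongr
        _ = T := by ring
    have hA2 : 3 * (T / ε) + 1 ≤ T ^ 2 := by
      have h4 : 4 * (T / ε) ≤ T ^ 2 := by
        calc 4 * (T / ε) = 4 / ε * T := by ring
          _ ≤ T * T := by gcongr
          _ = _ := by ring
      have h5 : 1 ≤ T / ε := by
        rw [le_div_iff₀ hε]
        linarith
      linarith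
    have hbD : 1 / (a * h / T) ≤ 1 / (a * ε) * (ε * T) := by
      rw [one_div_div]
      calc T / (a * h) ≤ T / a := div_le_div_of_nonneg_left hT0.le ha hah
        _ = _ := by field_simp
    exact hdec η T (ε * T) (T / ε) (a * h / T) (1 / (a * ε)) (by linarith) hL hη hLε hAA hA2 hb0
      hb1 (by positivity) hbD
  have hI4 : ∫⁻ t : ℝ, G4 t ≤ ENNReal.ofReal 1 := by
    rw [hG4, lintegral_const_mul' _ _ ENNReal.ofReal_ne_top]
    have h1 := mass hmv (b := a * h / T / 2) (by positivity) (by linarith)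
    calc _ ≤ ENNReal.ofReal (((T / ε) ^ 2) ^ 2 * Real.exp (-(a * T / 2))) *
          ENNReal.ofReal (C0 * (1 / (a * h / T / 2) + 1)) := by gcongr
      _ ≤ ENNReal.ofReal 1 := by
          rw [← ENNReal.ofReal_mul (by positivity)]
          refine ENNReal.ofReal_le_ofReal (le_trans ?_ htail)
          have h2 : 1 / (a * h / T / 2) ≤ 2 * T / a := by
            rw [div_div, one_div_div, mul_comm T 2]
            exact div_le_div_of_nonneg_left (by positivity) ha hah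
          calc _ = C0 * ((T / ε) ^ 2) ^ 2 * (1 / (a * h / T / 2) + 1) *
                Real.exp (-(a * T / 2)) := by ring
            _ ≤ _ := by gcongr
  calc _ ≤ ∫⁻ t in {t : ℝ | T / L ^ 6 < |t| ∧
        ∃ v < nb (PB T) κ K, VB κ T v < ‖Qb (PB T) κ v t‖ ^ 2},
        (G1 t + (G2 t + (G3 t + G4 t))) :=
        setLIntegral_mono (hG1m.add (hG2m.add (hG3m.add hG4m))) hpt
    _ ≤ ∫⁻ t : ℝ, (G1 t + (G2 t + (G3 t + G4 t))) := setLIntegral_le_lintegral _ _
    _ = (∫⁻ t : ℝ, G1 t) + ((∫⁻ t : ℝ, G2 t) + ((∫⁻ t : ℝ, G3 t) + ∫⁻ t : ℝ, G4 t)) := by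
        rw [lintegral_add_left hG1m, lintegral_add_left hG2m, lintegral_add_left hG3m]
    _ ≤ ENNReal.ofReal (27 * (3 * C1 ^ 2 * C' / (a * ε))) + (ENNReal.ofReal (3 * (C2 * L ^ 3)) +
        (ENNReal.ofReal (3 * (C3 * (1 + 1 / (a * ε)) * L ^ 3)) + ENNReal.ofReal 1)) := by
        gcongr
    _ = ENNReal.ofReal (27 * (3 * C1 ^ 2 * C' / (a * ε)) + (3 * (C2 * L ^ 3) +
        (3 * (C3 * (1 + 1 / (a * ε)) * L ^ 3) + 1))) := by
        rw [ENNReal.ofReal_add (by positivity) (by positivity),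
          ENNReal.ofReal_add (by positivity) (by positivity),
          ENNReal.ofReal_add (by positivity) (by positivity)]
    _ ≤ ENNReal.ofReal (δ * L ^ 4) := by
        refine ENNReal.ofReal_le_ofReal ?_
        have hL3 : 1 ≤ L ^ 3 := one_le_pow₀ hL
        have hX : 0 ≤ 27 * (3 * C1 ^ 2 * C' / (a * ε)) := by positivity
        calc _ ≤ Ct * L ^ 3 := num_Ct hX hCt hL3
          _ ≤ δ * L * L ^ 3 := by gcongr
          _ = _ := by ring

end Pool.Agent.Lib.MP_6bc78b_nt.GP.H68
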