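import Pool.Agent.Lib.MP_6bc78b_nt.GP.H3.Defs8
import Pool.Agent.Lib.MP_6bc78b_nt.GP.H92.Dec

/-! Project GP8 (MP_6bc78b_nt), row HIGH8, part a: pointwise bounds, continuity, large primes. -/

set_option autoImplicit false

open Complex Filter Topology MeasureTheory Set
open scoped ENNReal

namespace Pool.Agent.Lib.MP_6bc78b_nt.GP.H68

open Pool.Agent.Lib.MP_6bc78b_nt.MS Pool.Agent.Lib.MP_6bc78b_nt.MS.P1
  Pool.Agent.Lib.MP_6bc78b_nt.GP.G7 Pool.Agent.Lib.MP_6bc78b_nt.GP.G8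

theorem cont_sum (s : Finset ℕ) (c : ℕ → ℂ) (hs : ∀ n ∈ s, n ≠ 0) :
    Continuous fun t : ℝ => ∑ n ∈ s, c n * (n : ℂ) ^ (-(1 + t * I : ℂ)) := by
  refine continuous_finsetSum _ fun n hn => ?_
  have hn0 : (n : ℂ) ≠ 0 := by exact_mod_cast hs n hn
  exact continuous_const.mul ((by fun_prop : Continuous fun t : ℝ => -(1 + t * I : ℂ)).const_cpow
      (Or.inl hn0))

theorem cont_sum1 (s : Finset ℕ) (hs : ∀ n ∈ s, n ≠ 0) :
    Continuous fun t : ℝ => ∑ n ∈ s, (n : ℂ) ^ (-(1 + t * I : ℂ)) := by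
  simpa using cont_sum s (fun _ => 1) hs

theorem cont_Rj (T : ℝ) (j : ℕ) : Continuous (Rj T j) := by
  unfold Rj
  exact cont_sum _ _ fun n hn => (Finset.mem_filter.1 hn).2.ne_zero

theorem cont_Zj (A1 A2 T : ℝ) (j : ℕ) : Continuous (H92D.Zj A1 A2 T j) := by
  unfold H92D.Zj
  refine cont_sum1 _ fun n hn => ?_
  unfold H92D.Ls at hn
  have := (Finset.mem_Ioc.1 hn).1
  omega

theorem cont_Qp (P Q : ℝ) : Continuous (Qp P Q) := by
  unfold Qp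
  refine cont_sum1 _ fun n hn => ?_
  unfold qs at hn
  exact (Finset.mem_filter.1 hn).2.1.ne_zero

/-- The pointwise bound: few indices `j`, all `R_j` small, some block large. -/
theorem small_pt {L C : ℝ} (J : Finset ℕ) (R Z Qf : ℕ → ℂ)
    (hR : ∀ j ∈ J, ‖R j‖ ≤ C * L ^ 4 * Real.exp (-((j : ℝ) / (2 * L))))
    (V : ℕ → ℝ) (hV : ∀ v, 0 < V v) (n k : ℕ) (hex : ∃ v < n, V v < ‖Qf v‖ ^ 2) :
    ‖∑ j ∈ J, R j * Z j‖ ^ 2 ≤ ∑ j ∈ J, ∑ v ∈ Finset.range n,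
      ((J.card : ℝ) * (C * L ^ 4) ^ 2 * Real.exp (-((j : ℝ) / L)) / V v ^ k) *
        ‖Z j * Qf v ^ k‖ ^ 2 := by
  have h1 : ‖∑ j ∈ J, R j * Z j‖ ^ 2 ≤ (J.card : ℝ) * ∑ j ∈ J, ‖R j * Z j‖ ^ 2 := by
    calc ‖∑ j ∈ J, R j * Z j‖ ^ 2 ≤ (∑ j ∈ J, ‖R j * Z j‖) ^ 2 := by
          gcongr
          exact norm_sum_le _ _
      _ ≤ _ := sq_sum_le_card_mul_sum_sq
  refine h1.trans ?_
  rw [Finset.mul_sum]
  refine Finset.sum_le_sum fun j hj => ?_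
  obtain ⟨v, hv, hvv⟩ := hex
  have h2 : 1 ≤ ‖Qf v ^ k‖ ^ 2 / V v ^ k := by
    rw [le_div_iff₀ (pow_pos (hV v) k), one_mul, norm_pow, ← pow_mul, mul_comm k 2, pow_mul]
    exact pow_le_pow_left₀ (hV v).le hvv.le k
  have h3 : ‖R j‖ ^ 2 ≤ (C * L ^ 4) ^ 2 * Real.exp (-((j : ℝ) / L)) := by
    calc ‖R j‖ ^ 2 ≤ (C * L ^ 4 * Real.exp (-((j : ℝ) / (2 * L)))) ^ 2 :=
          pow_le_pow_left₀ (norm_nonneg _) (hR j hj) 2
      _ = _ := by
        rw [mul_pow, ← Real.exp_nat_mul]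
        congr 2
        push_cast
        ring_nf
  have h4 : (J.card : ℝ) * ‖R j * Z j‖ ^ 2 ≤
      ((J.card : ℝ) * (C * L ^ 4) ^ 2 * Real.exp (-((j : ℝ) / L)) / V v ^ k) *
        ‖Z j * Qf v ^ k‖ ^ 2 := by
    rw [norm_mul, mul_pow, norm_mul, mul_pow]
    calc (J.card : ℝ) * (‖R j‖ ^ 2 * ‖Z j‖ ^ 2)
        ≤ (J.card : ℝ) * (((C * L ^ 4) ^ 2 * Real.exp (-((j : ℝ) / L))) * ‖Z j‖ ^ 2) := by
          gcongr
      _ = (J.card : ℝ) * (((C * L ^ 4) ^ 2 * Real.exp (-((j : ℝ) / L))) * ‖Z j‖ ^ 2) * 1 := by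
          ring
      _ ≤ (J.card : ℝ) * (((C * L ^ 4) ^ 2 * Real.exp (-((j : ℝ) / L))) * ‖Z j‖ ^ 2) *
          (‖Qf v ^ k‖ ^ 2 / V v ^ k) := by
          gcongr
      _ = _ := by ring
  refine h4.trans ?_
  refine Finset.single_le_sum (f := fun v => ((J.card : ℝ) * (C * L ^ 4) ^ 2 *
    Real.exp (-((j : ℝ) / L)) / V v ^ k) * ‖Z j * Qf v ^ k‖ ^ 2) (fun i _ => ?_)
    (Finset.mem_range.2 hv)
  have := hV i
  positivity

/-- `ff` at a prime. -/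
theorem ff_prime (η T : ℝ) {p : ℕ} (hp : p.Prime) :
    ff η T p = ∑ j ∈ js η T, hatw (1 / Real.log T) j p * Real.log p ^ 2 := by
  unfold ff fj
  refine Finset.sum_congr rfl fun j _ => ?_
  rw [hp.primeFactors, Finset.sum_singleton]

/-- The coefficients of the large primes. -/
noncomputable def cb (J : Finset ℕ) (T : ℝ) (n : ℕ) : ℝ :=
  if n.Prime then ∑ j ∈ J, hatw (1 / Real.log T) j n * Real.log n ^ 2 else 0

theorem cb_nonneg (J : Finset ℕ) (T : ℝ) (n : ℕ) : 0 ≤ cb J T n := by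
  unfold cb
  split_ifs
  · exact Finset.sum_nonneg fun j _ => mul_nonneg (H92D.hatw_nonneg _ _ _) (sq_nonneg _)
  · exact le_rfl

theorem cb_le (hB : BASXStatement) {η T : ℝ} (hT : 3 ≤ T) (hη : 0 < η) {J : Finset ℕ}
    (hJ : J ⊆ js η T) (n : ℕ) : cb J T n ≤ Real.log n ^ 2 := by
  unfold cb
  split_ifs with h
  · calc ∑ j ∈ J, hatw (1 / Real.log T) j n * Real.log n ^ 2
        ≤ ∑ j ∈ js η T, hatw (1 / Real.log T) j n * Real.log n ^ 2 :=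
          Finset.sum_le_sum_of_subset_of_nonneg hJ fun j _ _ =>
            mul_nonneg (H92D.hatw_nonneg _ _ _) (sq_nonneg _)
      _ = ff η T n := (ff_prime η T h).symm
      _ ≤ G7.bet n := (hB.2.2.1 η T n hT hη).2
      _ ≤ _ := (hB.2.1 n).2
  · positivity

/-- `∑_{j ∈ J} R_j` is a Dirichlet polynomial. -/
theorem sum_Rj_eq {T : ℝ} (hT : 0 < Real.log T) (J : Finset ℕ) (N : ℕ)
    (hN : ∀ j ∈ J, Real.exp ((j + 1 : ℝ) / Real.log T) ≤ N) (t : ℝ) :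
    ∑ j ∈ J, Rj T j t = DP (fun n => (cb J T n : ℂ)) N t := by
  unfold DP cb
  have h1 : ∀ n ∈ Finset.Icc 1 N, (((if n.Prime then
      ∑ j ∈ J, hatw (1 / Real.log T) j n * Real.log n ^ 2 else 0 : ℝ)) : ℂ) *
      (n : ℂ) ^ (-(1 + t * I : ℂ)) = ∑ j ∈ J, if n.Prime then
        ((hatw (1 / Real.log T) j n * Real.log n ^ 2 : ℝ) : ℂ) * (n : ℂ) ^ (-(1 + t * I : ℂ))
        else 0 := by
    intro n _
    split_ifs with h
    · rw [Complex.ofReal_sum, Finset.sum_mul]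
    · simp
  rw [Finset.sum_congr rfl h1, Finset.sum_comm]
  refine Finset.sum_congr rfl fun j hj => ?_
  rw [← Finset.sum_filter]
  unfold Rj
  have hfl : ⌊Real.exp ((j + 1 : ℝ) / Real.log T)⌋₊ ≤ N := by
    have h2 := Nat.floor_le (Real.exp_pos ((j + 1 : ℝ) / Real.log T)).le
    exact_mod_cast h2.trans (hN j hj)
  refine Finset.sum_subset_zero_on_sdiff ?_ ?_ fun _ _ => rfl
  · intro p hp
    rw [Finset.mem_filter, Finset.mem_range] at hp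
    rw [Finset.mem_filter, Finset.mem_Icc]
    exact ⟨⟨hp.2.pos, by omega⟩, hp.2⟩
  · intro p hp
    rw [Finset.mem_sdiff, Finset.mem_filter, Finset.mem_filter, Finset.mem_range] at hp
    have h3 : ⌊Real.exp ((j + 1 : ℝ) / Real.log T)⌋₊ + 1 ≤ p := by
      by_contra h
      exact hp.2 ⟨by omega, hp.1.2⟩
    have h4 : hatw (1 / Real.log T) j p = 0 := by
      by_contra h
      have h5 := H92D.hatw_support (by positivity) h
      have h6 : (p : ℝ) < Real.exp ((j + 1 : ℝ) / Real.log T) := by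
        have := h5.2
        rwa [one_div, inv_mul_eq_div] at this
      have h7 := Nat.lt_floor_add_one (Real.exp ((j + 1 : ℝ) / Real.log T))
      have h8 : ((⌊Real.exp ((j + 1 : ℝ) / Real.log T)⌋₊ + 1 : ℕ) : ℝ) ≤ p := by exact_mod_cast h3
      push_cast at h8
      linarith
    rw [h4]
    simp

end Pool.Agent.Lib.MP_6bc78b_nt.GP.H68
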