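import Pool.Agent.Lib.MP_6bc78b_nt.GP.H68.High8a
import Mathlib.NumberTheory.Chebyshev

/-! Project GP8 (MP_6bc78b_nt), row HIGH8, part b: the primes `> T` by the mean value theorem. -/

set_option autoImplicit false

open Complex Filter Topology MeasureTheory Set
open scoped ENNReal

namespace Pool.Agent.Lib.MP_6bc78b_nt.GP.H68

open Pool.Agent.Lib.MP_6bc78b_nt.MS Pool.Agent.Lib.MP_6bc78b_nt.MS.P1
  Pool.Agent.Lib.MP_6bc78b_nt.GP.G7 Pool.Agent.Lib.MP_6bc78b_nt.GP.G8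

/-- The coefficients vanish at primes `≤ T/3`. -/
theorem cb_zero {T : ℝ} (hL : 1 ≤ Real.log T) (hT0 : 0 < T) {J : Finset ℕ}
    (hJ2 : ∀ j ∈ J, Real.log T ^ 2 < j) {n : ℕ} (h : cb J T n ≠ 0) : n.Prime ∧ T < 3 * n := by
  unfold cb at h
  split_ifs at h with hp
  · refine ⟨hp, ?_⟩
    obtain ⟨j, hj, hne⟩ := Finset.exists_ne_zero_of_sum_ne_zero h
    have h1 : hatw (1 / Real.log T) j n ≠ 0 := left_ne_zero_of_mul hne
    have h2 := (H92D.hatw_support (by positivity) h1).1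
    have hj2 := hJ2 j hj
    have h3 : Real.log T - 1 ≤ 1 / Real.log T * ((j : ℝ) - 1) := by
      rw [one_div, inv_mul_eq_div, le_div_iff₀ (by linarith)]
      nlinarith
    have h4 : Real.exp (Real.log T - 1) < n := (Real.exp_le_exp.2 h3).trans_lt h2
    rw [Real.exp_sub, Real.exp_log hT0, div_lt_iff₀ (Real.exp_pos _)] at h4
    have h5 := Real.exp_one_lt_d9
    have h6 : (0 : ℝ) < n := by exact_mod_cast hp.pos
    nlinarith
  · exact absurd rfl h

/-- The sum for the mean value theorem. -/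
theorem cb_sum (hB : BASXStatement) (a ε : ℝ) (ha : 0 < a) (hε : 0 < ε) (hε1 : ε < 1) :
    ∃ C : ℝ, 0 < C ∧ ∀ (η T b : ℝ) (J : Finset ℕ) (N : ℕ), 10 ≤ T → 4 / ε ≤ T → 0 < η →
      a / T ≤ b → J ⊆ js η T → (∀ j ∈ J, Real.log T ^ 2 < j) → 1 ≤ N →
      (N : ℝ) ≤ 4 * T / ε →
      ∑ n ∈ Finset.Icc 1 N, (1 / b + n) * ‖(cb J T n : ℂ)‖ ^ 2 / (n : ℝ) ^ 2 ≤
        C * Real.log T ^ 3 := by
  refine ⟨(3 / a + 1) * (8 * 3) * (Real.log 4 * (4 / ε)), by positivity, ?_⟩
  intro η T b J N hT hTε hη hb hJ hJ2 hN1 hN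
  have hT0 : 0 < T := by linarith
  have hL : 1 ≤ Real.log T := by
    rw [Real.le_log_iff_exp_le hT0]
    have := Real.exp_one_lt_d9
    linarith
  have hb0 : 0 < b := lt_of_lt_of_le (by positivity) hb
  have hbT : 1 / b ≤ T / a := by
    rw [div_le_div_iff₀ hb0 ha]
    rw [div_le_iff₀ hT0] at hb
    linarith
  have hNpos : (0 : ℝ) < N := by exact_mod_cast hN1
  have hlN : Real.log N ≤ 2 * Real.log T := by
    have : (N : ℝ) ≤ T ^ 2 := by
      refine hN.trans ?_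
      calc 4 * T / ε = 4 / ε * T := by ring
        _ ≤ T * T := by gcongr
        _ = T ^ 2 := by ring
    calc Real.log N ≤ Real.log (T ^ 2) := Real.log_le_log hNpos this
      _ = 2 * Real.log T := by rw [Real.log_pow]; norm_num
  have key : ∀ n ∈ Finset.Icc 1 N, (1 / b + n) * ‖(cb J T n : ℂ)‖ ^ 2 / (n : ℝ) ^ 2 ≤
      if n.Prime then (3 / a + 1) * (8 * 3) * (Real.log T ^ 3 / T) * Real.log n else 0 := by
    intro n hn
    rw [Finset.mem_Icc] at hn
    by_cases hc : cb J T n = 0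
    · rw [hc]
      have : 0 ≤ Real.log n := Real.log_natCast_nonneg n
      split_ifs <;> simp
      positivity
    · obtain ⟨hp, hTn⟩ := cb_zero hL hT0 hJ2 hc
      rw [if_pos hp]
      have hn0 : (0 : ℝ) < n := by exact_mod_cast hp.pos
      have h0 := cb_nonneg J T n
      have h1 := cb_le hB (by linarith) hη hJ n
      have hln : 0 ≤ Real.log n := Real.log_natCast_nonneg n
      have hlnN : Real.log n ≤ 2 * Real.log T := by
        refine le_trans (Real.log_le_log hn0 ?_) hlN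
        exact_mod_cast hn.2
      rw [Complex.norm_real, Real.norm_of_nonneg h0]
      have h2 : 1 / b + n ≤ (3 / a + 1) * n := by
        have : T / a ≤ 3 / a * n := by
          rw [div_mul_eq_mul_div]
          gcongr
        nlinarith
      have h3 : cb J T n ^ 2 ≤ (8 * Real.log T ^ 3) * Real.log n := by
        calc cb J T n ^ 2 ≤ (Real.log n ^ 2) ^ 2 := by gcongr
          _ = Real.log n ^ 3 * Real.log n := by ring
          _ ≤ (2 * Real.log T) ^ 3 * Real.log n := by gcongr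
          _ = _ := by ring
      rw [div_le_iff₀ (by positivity)]
      calc (1 / b + n) * cb J T n ^ 2 ≤ ((3 / a + 1) * n) * ((8 * Real.log T ^ 3) * Real.log n) := by
            apply mul_le_mul h2 h3 (by positivity) (by positivity)
        _ = (3 / a + 1) * 8 * Real.log T ^ 3 * Real.log n * n * 1 := by ring
        _ ≤ (3 / a + 1) * 8 * Real.log T ^ 3 * Real.log n * n * (3 * n / T) := by
            gcongr
            rw [le_div_iff₀ hT0]
            linarith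
        _ = _ := by ring
  refine (Finset.sum_le_sum key).trans ?_
  rw [← Finset.sum_filter, ← Finset.mul_sum]
  have hth : ∑ n ∈ (Finset.Icc 1 N).filter Nat.Prime, Real.log n ≤ Real.log 4 * N := by
    have h1 := Chebyshev.theta_le_log4_mul_x (x := (N : ℝ)) hNpos.le
    refine le_trans (le_of_eq ?_) h1
    rw [Chebyshev.theta_eq_sum_Icc, Nat.floor_natCast]
    refine Finset.sum_congr ?_ fun _ _ => rfl
    ext p
    simp only [Finset.mem_filter, Finset.mem_Icc]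
    constructor
    · rintro ⟨⟨h2, h3⟩, h4⟩
      exact ⟨⟨by omega, h3⟩, h4⟩
    · rintro ⟨⟨h2, h3⟩, h4⟩
      exact ⟨⟨h4.pos, h3⟩, h4⟩
  calc (3 / a + 1) * (8 * 3) * (Real.log T ^ 3 / T) *
      ∑ n ∈ (Finset.Icc 1 N).filter Nat.Prime, Real.log n
      ≤ (3 / a + 1) * (8 * 3) * (Real.log T ^ 3 / T) * (Real.log 4 * (4 * T / ε)) := by
        gcongr
        exact hth.trans (by gcongr)
    _ = _ := by field_simp

/-- The part of the primes `> T`. -/
theorem bigj (hM : MVTXStatement) (hB : BASXStatement) (a ε : ℝ) (ha : 0 < a) (hε : 0 < ε)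
    (hε1 : ε < 1) : ∃ C : ℝ, 0 < C ∧ ∀ (η T b : ℝ) (J : Finset ℕ), 10 ≤ T → 4 / ε ≤ T → 0 < η →
      a / T ≤ b → b ≤ 1 → J ⊆ js η T → (∀ j ∈ J, Real.log T ^ 2 < j) →
      ∫⁻ t : ℝ, ENNReal.ofReal (‖∑ j ∈ J, Rj T j t * H92D.Zj (ε * T) (T / ε) T j t‖ ^ 2 *
        Real.exp (-(b * |t|))) ≤ ENNReal.ofReal (C * Real.log T ^ 3) := by
  obtain ⟨C0, hC0, hmv⟩ := hM
  obtain ⟨C1, hC1, hcb⟩ := cb_sum hB a ε ha hε hε1
  refine ⟨(⌊1 / ε⌋₊ + 1 : ℝ) * ((⌊1 / ε⌋₊ + 1 : ℝ) * (C0 * C1)), by positivity, ?_⟩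
  intro η T b J hT hTε hη hb hb1 hJ hJ2
  have hT0 : 0 < T := by linarith
  have hL : 1 ≤ Real.log T := by
    rw [Real.le_log_iff_exp_le hT0]
    have := Real.exp_one_lt_d9
    linarith
  have hb0 : 0 < b := lt_of_lt_of_le (by positivity) hb
  set M : ℕ := ⌊1 / ε⌋₊ with hMdef
  set N : ℕ := ⌈3 * (T / ε)⌉₊ with hNdef
  let Jl : ℕ → Finset ℕ := fun l => J.filter (fun j => l ∈ H92D.Ls (ε * T) (T / ε) T j)
  have hTε0 : 0 < T / ε := by positivity
  have hN4 : (N : ℝ) ≤ 4 * T / ε := by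
    have h1 := (Nat.ceil_lt_add_one (a := 3 * (T / ε)) (by positivity)).le
    have h2 : 1 ≤ T / ε := by
      rw [le_div_iff₀ hε]
      linarith
    calc (N : ℝ) ≤ 3 * (T / ε) + 1 := h1
      _ ≤ 4 * (T / ε) := by linarith
      _ = _ := by ring
  have hN1 : 1 ≤ N := by
    have : (0 : ℝ) < N := lt_of_lt_of_le (by positivity) (Nat.le_ceil (3 * (T / ε)))
    exact_mod_cast this
  have hLs : ∀ j ∈ J, H92D.Ls (ε * T) (T / ε) T j ⊆ Finset.Icc 1 M := by
    intro j hj l hl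
    unfold H92D.Ls at hl
    rw [Finset.mem_Ioc] at hl
    rw [Finset.mem_Icc]
    refine ⟨by omega, hl.2.trans (Nat.floor_le_floor ?_)⟩
    rw [div_div, div_le_div_iff₀ (by positivity) hε]
    have h1 : Real.log T ≤ (j : ℝ) / Real.log T := by
      rw [le_div_iff₀ (by linarith)]
      have := hJ2 j hj
      nlinarith
    have h2 : T ≤ Real.exp ((j : ℝ) / Real.log T) := by
      calc T = Real.exp (Real.log T) := (Real.exp_log hT0).symm
        _ ≤ _ := Real.exp_le_exp.2 h1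
    nlinarith
  have hid : ∀ t : ℝ, ∑ j ∈ J, Rj T j t * H92D.Zj (ε * T) (T / ε) T j t =
      ∑ l ∈ Finset.Icc 1 M, (l : ℂ) ^ (-(1 + t * I : ℂ)) * ∑ j ∈ Jl l, Rj T j t := by
    intro t
    have h1 : ∀ l ∈ Finset.Icc 1 M, (l : ℂ) ^ (-(1 + t * I : ℂ)) * ∑ j ∈ Jl l, Rj T j t =
        ∑ j ∈ J, if l ∈ H92D.Ls (ε * T) (T / ε) T j then
          (l : ℂ) ^ (-(1 + t * I : ℂ)) * Rj T j t else 0 := by
      intro l _
      rw [Finset.mul_sum, Finset.sum_filter]
    rw [Finset.sum_congr rfl h1, Finset.sum_comm]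
    refine Finset.sum_congr rfl fun j hj => ?_
    rw [Finset.sum_ite_mem, Finset.inter_eq_right.2 (hLs j hj)]
    unfold H92D.Zj
    rw [Finset.mul_sum]
    exact Finset.sum_congr rfl fun l _ => mul_comm _ _
  have hDP : ∀ l ∈ Finset.Icc 1 M, ∀ t : ℝ, ∑ j ∈ Jl l, Rj T j t =
      DP (fun n => (cb (Jl l) T n : ℂ)) N t := by
    intro l hl t
    rw [Finset.mem_Icc] at hl
    refine sum_Rj_eq (by linarith) _ _ (fun j hj => ?_) t
    have hj2 := (Finset.mem_filter.1 hj).2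
    unfold H92D.Ls at hj2
    rw [Finset.mem_Ioc] at hj2
    have h1 : (1 : ℝ) ≤ T / ε / Real.exp ((j : ℝ) / Real.log T) := by
      have h2 : (l : ℝ) ≤ T / ε / Real.exp ((j : ℝ) / Real.log T) :=
        (Nat.le_floor_iff (by positivity)).1 hj2.2
      refine le_trans ?_ h2
      exact_mod_cast hl.1
    rw [le_div_iff₀ (Real.exp_pos _), one_mul] at h1
    have h3 : Real.exp ((j + 1 : ℝ) / Real.log T) ≤ 3 * (T / ε) := by
      rw [add_div, Real.exp_add]
      have h4 : Real.exp (1 / Real.log T) ≤ 3 := by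
        have h5 : 1 / Real.log T ≤ 1 := by
          rw [div_le_one (by linarith)]
          exact hL
        have := Real.exp_one_lt_d9
        linarith [Real.exp_le_exp.2 h5]
      nlinarith [Real.exp_pos ((j : ℝ) / Real.log T)]
    exact h3.trans (Nat.le_ceil _)
  have hpt : ∀ t : ℝ, ENNReal.ofReal (‖∑ j ∈ J, Rj T j t * H92D.Zj (ε * T) (T / ε) T j t‖ ^ 2 *
      Real.exp (-(b * |t|))) ≤ ∑ l ∈ Finset.Icc 1 M, ENNReal.ofReal (M : ℝ) *
        ENNReal.ofReal (‖DP (fun n => (cb (Jl l) T n : ℂ)) N t‖ ^ 2 * Real.exp (-(b * |t|))) := by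
    intro t
    have h1 : ‖∑ j ∈ J, Rj T j t * H92D.Zj (ε * T) (T / ε) T j t‖ ^ 2 ≤
        (M : ℝ) * ∑ l ∈ Finset.Icc 1 M, ‖DP (fun n => (cb (Jl l) T n : ℂ)) N t‖ ^ 2 := by
      rw [hid t]
      calc ‖∑ l ∈ Finset.Icc 1 M, (l : ℂ) ^ (-(1 + t * I : ℂ)) * ∑ j ∈ Jl l, Rj T j t‖ ^ 2
          ≤ (∑ l ∈ Finset.Icc 1 M,
            ‖(l : ℂ) ^ (-(1 + t * I : ℂ)) * ∑ j ∈ Jl l, Rj T j t‖) ^ 2 := by
            gcongr
            exact norm_sum_le _ _
        _ ≤ ((Finset.Icc 1 M).card : ℝ) * ∑ l ∈ Finset.Icc 1 M,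
            ‖(l : ℂ) ^ (-(1 + t * I : ℂ)) * ∑ j ∈ Jl l, Rj T j t‖ ^ 2 :=
            sq_sum_le_card_mul_sum_sq
        _ ≤ _ := by
            rw [Nat.card_Icc, Nat.add_sub_cancel]
            gcongr with l hl
            rw [norm_mul, hDP l hl t]
            have hl1 := (Finset.mem_Icc.1 hl).1
            have h2 : ‖(l : ℂ) ^ (-(1 + t * I : ℂ))‖ ≤ 1 := by
              rw [Complex.norm_natCast_cpow_of_pos (by omega)]
              have hre : (-(1 + t * I : ℂ)).re = -1 := by simp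
              rw [hre, Real.rpow_neg_one]
              exact inv_le_one_of_one_le₀ (by exact_mod_cast hl1)
            calc _ ≤ 1 * ‖DP (fun n => (cb (Jl l) T n : ℂ)) N t‖ := by gcongr
              _ = _ := one_mul _
    calc _ ≤ ENNReal.ofReal (∑ l ∈ Finset.Icc 1 M, (M : ℝ) *
          (‖DP (fun n => (cb (Jl l) T n : ℂ)) N t‖ ^ 2 * Real.exp (-(b * |t|)))) := by
          refine ENNReal.ofReal_le_ofReal ?_
          rw [← Finset.mul_sum, ← Finset.sum_mul, ← mul_assoc]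
          exact mul_le_mul_of_nonneg_right h1 (Real.exp_pos _).le
      _ = _ := by
          rw [ENNReal.ofReal_sum_of_nonneg fun l _ => by positivity]
          refine Finset.sum_congr rfl fun l _ => ?_
          rw [ENNReal.ofReal_mul (by positivity)]
  have hcont : ∀ l : ℕ, Measurable fun t : ℝ => ENNReal.ofReal (M : ℝ) *
      ENNReal.ofReal (‖DP (fun n => (cb (Jl l) T n : ℂ)) N t‖ ^ 2 * Real.exp (-(b * |t|))) := by
    intro l
    have h1 : Continuous (DP (fun n => (cb (Jl l) T n : ℂ)) N) := by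
      unfold DP
      exact cont_sum _ _ fun n hn => by
        have := (Finset.mem_Icc.1 hn).1
        omega
    have h2 : Continuous fun t : ℝ => ‖DP (fun n => (cb (Jl l) T n : ℂ)) N t‖ ^ 2 *
        Real.exp (-(b * |t|)) := by fun_prop
    exact (h2.measurable.ennreal_ofReal).const_mul _
  calc _ ≤ ∫⁻ t : ℝ, ∑ l ∈ Finset.Icc 1 M, ENNReal.ofReal (M : ℝ) *
        ENNReal.ofReal (‖DP (fun n => (cb (Jl l) T n : ℂ)) N t‖ ^ 2 * Real.exp (-(b * |t|))) :=
        lintegral_mono hpt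
    _ = ∑ l ∈ Finset.Icc 1 M, ∫⁻ t : ℝ, ENNReal.ofReal (M : ℝ) *
        ENNReal.ofReal (‖DP (fun n => (cb (Jl l) T n : ℂ)) N t‖ ^ 2 * Real.exp (-(b * |t|))) :=
        lintegral_finsetSum _ fun l _ => hcont l
    _ ≤ ∑ l ∈ Finset.Icc 1 M, ENNReal.ofReal ((M : ℝ) * (C0 * (C1 * Real.log T ^ 3))) := by
        refine Finset.sum_le_sum fun l _ => ?_
        rw [lintegral_const_mul' _ _ ENNReal.ofReal_ne_top,
          ENNReal.ofReal_mul (p := (M : ℝ)) (by positivity)]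
        gcongr
        refine (hmv N _ b hb0 hb1).trans (ENNReal.ofReal_le_ofReal ?_)
        gcongr
        exact hcb η T b (Jl l) N hT hTε hη hb ((Finset.filter_subset _ _).trans hJ)
          (fun j hj => hJ2 j (Finset.mem_filter.1 hj).1) hN1 hN4
    _ = ENNReal.ofReal ((M : ℝ) * ((M : ℝ) * (C0 * (C1 * Real.log T ^ 3)))) := by
        rw [Finset.sum_const, Nat.card_Icc, Nat.add_sub_cancel, nsmul_eq_mul,
          ENNReal.ofReal_mul (p := (M : ℝ)) (by positivity) (q := (M : ℝ) * (C0 * (C1 * Real.log T ^ 3))),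
          ENNReal.ofReal_natCast]
    _ ≤ _ := by
        refine ENNReal.ofReal_le_ofReal ?_
        have hM1 : (M : ℝ) ≤ M + 1 := by linarith
        calc (M : ℝ) * ((M : ℝ) * (C0 * (C1 * Real.log T ^ 3)))
            ≤ (M + 1 : ℝ) * ((M + 1 : ℝ) * (C0 * (C1 * Real.log T ^ 3))) := by gcongr
          _ = _ := by ring

end Pool.Agent.Lib.MP_6bc78b_nt.GP.H68
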