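import Pool.Agent.Lib.MP_6bc78b_nt.GP.H68.High8b
import Pool.Agent.Lib.MP_6bc78b_nt.GP.H78.Par

/-! Project GP8 (MP_6bc78b_nt), row HIGH8, part c: the numbers. -/

set_option autoImplicit false

open Complex Filter Topology MeasureTheory Set
open scoped ENNReal

namespace Pool.Agent.Lib.MP_6bc78b_nt.GP.H68

open Pool.Agent.Lib.MP_6bc78b_nt.MS Pool.Agent.Lib.MP_6bc78b_nt.MS.P1
  Pool.Agent.Lib.MP_6bc78b_nt.GP.G7 Pool.Agent.Lib.MP_6bc78b_nt.GP.G8

theorem yb_ge {P κ : ℝ} (hP : 0 ≤ P) (hκ : 0 ≤ κ) (v : ℕ) : P ≤ yb P κ v := by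
  unfold yb
  have : 1 ≤ Real.exp (κ * v) := Real.one_le_exp (by positivity)
  nlinarith

theorem VB_pos {κ T : ℝ} (hP : 0 < PB T) (v : ℕ) : 0 < VB κ T v := by
  unfold VB yb
  positivity

/-- The gain of the block. -/
theorem VB_bound {κ T : ℝ} (v : ℕ) (hκ : 0 ≤ κ) (hL : 1 ≤ Real.log T)
    (hx : 230 ≤ Real.log (Real.log T)) :
    (4 * (H78.kk T : ℝ) / yb (PB T) κ v) ^ H78.kk T / VB κ T v ^ H78.kk T ≤
      1 / Real.log T ^ 20 := by
  set x := Real.log (Real.log T) with hxdef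
  set k := H78.kk T with hk
  have hx0 : 0 < x := by linarith
  have hP : 0 < PB T := by
    unfold PB
    rw [← hxdef]
    positivity
  have hy : PB T ≤ yb (PB T) κ v := yb_ge hP.le hκ v
  set y := yb (PB T) κ v with hydef
  have hy0 : 0 < y := lt_of_lt_of_le hP hy
  have hV : 0 < VB κ T v := VB_pos hP v
  have hVy : VB κ T v * y = y ^ (1 / 8 : ℝ) := by
    unfold VB
    rw [← hydef]
    nth_rewrite 2 [← Real.rpow_one y]
    rw [← Real.rpow_add hy0]
    norm_num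
  have hy8 : x ^ 2 ≤ y ^ (1 / 8 : ℝ) := by
    have h1 : x ^ 2 = (x ^ 16) ^ (1 / 8 : ℝ) := by
      rw [← Real.rpow_natCast x 16, ← Real.rpow_mul hx0.le, ← Real.rpow_natCast x 2]
      norm_num
    rw [h1]
    refine Real.rpow_le_rpow (by positivity) ?_ (by norm_num)
    exact hy
  have hkx : (k : ℝ) ≤ 21 * x := H78.kk_le (by linarith)
  have h1 : 4 * (k : ℝ) / y ≤ VB κ T v * Real.exp (-1) := by
    rw [div_le_iff₀ hy0]
    have h2 := Real.exp_neg_one_gt_d9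
    calc 4 * (k : ℝ) ≤ 84 * x := by linarith
      _ ≤ 0.3678794411 * x ^ 2 := by nlinarith
      _ ≤ Real.exp (-1) * x ^ 2 := by
          gcongr
          linarith
      _ ≤ Real.exp (-1) * (VB κ T v * y) := by
          rw [hVy]
          gcongr
      _ = _ := by ring
  have h3 : (4 * (k : ℝ) / y) ^ k ≤ VB κ T v ^ k * Real.exp (-(k : ℝ)) := by
    calc (4 * (k : ℝ) / y) ^ k ≤ (VB κ T v * Real.exp (-1)) ^ k :=
          pow_le_pow_left₀ (by positivity) h1 _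
      _ = VB κ T v ^ k * Real.exp (-(k : ℝ)) := by
          rw [mul_pow, ← Real.exp_nat_mul]
          congr 2
          ring
  have h4 : Real.exp (-(k : ℝ)) ≤ 1 / Real.log T ^ 20 := by
    have h12 : Real.log T ^ 20 = Real.exp (20 * x) := by
      have : Real.exp x = Real.log T := Real.exp_log (by linarith)
      rw [← this, ← Real.exp_nat_mul]
      norm_num
    rw [h12, one_div, ← Real.exp_neg]
    apply Real.exp_le_exp.2
    have := H78.kk_ge T
    linarith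
  rw [div_le_iff₀ (by positivity)]
  calc (4 * (k : ℝ) / y) ^ k ≤ VB κ T v ^ k * Real.exp (-(k : ℝ)) := h3
    _ ≤ VB κ T v ^ k * (1 / Real.log T ^ 20) := by gcongr
    _ = _ := by ring

/-- The number of the blocks times `κ`. -/
theorem nb_le {P κ : ℝ} (K : ℕ) (hP : 1 ≤ P) (hκ : 0 < κ) :
    (nb P κ K : ℝ) ≤ K * Real.log P / κ + 1 := by
  unfold nb
  exact (Nat.ceil_lt_add_one (by
    have := Real.log_nonneg hP
    positivity)).le

/-- The ends of the blocks. -/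
theorem yb_le {κ T : ℝ} {K v : ℕ} (hκ : 0 < κ) (hκ1 : κ ≤ 1 / 2)
    (hx : 230 ≤ Real.log (Real.log T)) (hv : v < nb (PB T) κ K) :
    yb (PB T) κ (v + 1) ≤ QQ (8 * (K + 2)) T := by
  set x := Real.log (Real.log T) with hxdef
  have hx0 : 0 < x := by linarith
  have hPe : PB T = x ^ 16 := rfl
  have hP3 : 3 ≤ PB T := by
    rw [hPe]
    calc (3 : ℝ) ≤ x ^ 1 := by linarith
      _ ≤ x ^ 16 := pow_le_pow_right₀ (by linarith) (by norm_num)
  have hQ : QQ (8 * (K + 2)) T = PB T ^ (K + 2) := by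
    unfold QQ G7.PP PB
    rw [← pow_mul, ← pow_mul]
    congr 1
    ring
  have hn := nb_le (P := PB T) (κ := κ) K (by linarith) hκ
  have hv2 : ((v + 1 : ℕ) : ℝ) ≤ nb (PB T) κ K := by exact_mod_cast hv
  have h1 : κ * ((v + 1 : ℕ) : ℝ) ≤ K * Real.log (PB T) + 1 := by
    calc κ * ((v + 1 : ℕ) : ℝ) ≤ κ * (K * Real.log (PB T) / κ + 1) := by
          gcongr
          exact hv2.trans hn
      _ = K * Real.log (PB T) + κ := by field_simp
      _ ≤ _ := by linarith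
  rw [hQ]
  unfold yb
  calc PB T * Real.exp (κ * ((v + 1 : ℕ) : ℝ)) ≤ PB T * Real.exp (K * Real.log (PB T) + 1) := by
        gcongr
    _ = PB T * (PB T ^ K * Real.exp 1) := by
        rw [Real.exp_add, Real.exp_nat_mul, Real.exp_log (by linarith)]
    _ ≤ PB T * (PB T ^ K * PB T) := by
        have := Real.exp_one_lt_d9
        gcongr
        linarith
    _ = _ := by ring

/-- The number of the indices. -/
theorem js_card {η T : ℝ} (hL : 1 ≤ Real.log T) : ((js η T).card : ℝ) ≤ 3 * Real.log T ^ 2 := by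
  unfold js
  rw [Nat.card_Ico]
  have h1 : ((⌈2 * Real.log T ^ 2⌉₊ - ⌈η * Real.log T ^ 2⌉₊ : ℕ) : ℝ) ≤
      (⌈2 * Real.log T ^ 2⌉₊ : ℝ) := by exact_mod_cast Nat.sub_le _ _
  have h2 := (Nat.ceil_lt_add_one (a := 2 * Real.log T ^ 2) (by positivity)).le
  nlinarith

/-- The bound of one term. -/
theorem term_bd {L T a ε b' C1 C' F y V : ℝ} {j k L1 : ℕ} (hL : 1 ≤ L) (hT : 0 < T) (ha : 0 < a)
    (hε : 0 < ε) (hb0 : 0 < b') (hb : 1 / b' ≤ T / a) (hC' : 0 < C') (hF : 0 ≤ F)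
    (hy : 0 < y) (hV : 0 < V)
    (hgain : (4 * (k : ℝ) / y) ^ k / V ^ k ≤ 1 / L ^ 20)
    (hlog : 1 + Real.log (1 + L1) ≤ 3 * L) (hL1 : ε * T / Real.exp ((j : ℝ) / L) ≤ 1 + L1) :
    (F * (C1 * L ^ 4) ^ 2 * Real.exp (-((j : ℝ) / L)) / V ^ k) *
      (C' / b' * (4 * k / y) ^ k * (1 + Real.log (1 + L1)) / (1 + L1)) ≤
      F * (3 * C1 ^ 2 * C' / (a * ε)) / L ^ 11 := by
  have hL0 : 0 < L := by linarith
  have hE := Real.exp_pos ((j : ℝ) / L)
  have h1 : 1 / (1 + (L1 : ℝ)) ≤ Real.exp ((j : ℝ) / L) / (ε * T) := by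
    rw [div_le_div_iff₀ (by positivity) (by positivity), one_mul]
    rw [div_le_iff₀ hE] at hL1
    linarith
  have h2 : Real.exp (-((j : ℝ) / L)) * Real.exp ((j : ℝ) / L) = 1 := by
    rw [← Real.exp_add]
    simp
  have hlog0 : 0 ≤ 1 + Real.log (1 + L1) := by
    have : 0 ≤ Real.log (1 + L1) := Real.log_nonneg (by linarith [(Nat.cast_nonneg L1 : (0:ℝ) ≤ L1)])
    linarith
  calc (F * (C1 * L ^ 4) ^ 2 * Real.exp (-((j : ℝ) / L)) / V ^ k) *
      (C' / b' * (4 * k / y) ^ k * (1 + Real.log (1 + L1)) / (1 + L1))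
      = F * C1 ^ 2 * C' * L ^ 8 * Real.exp (-((j : ℝ) / L)) * (1 / b') *
        ((4 * (k : ℝ) / y) ^ k / V ^ k) * (1 + Real.log (1 + L1)) * (1 / (1 + (L1 : ℝ))) := by
        field_simp
    _ ≤ F * C1 ^ 2 * C' * L ^ 8 * Real.exp (-((j : ℝ) / L)) * (T / a) *
        (1 / L ^ 20) * (3 * L) * (Real.exp ((j : ℝ) / L) / (ε * T)) := by
        gcongr
    _ = F * C1 ^ 2 * C' * L ^ 8 * (Real.exp (-((j : ℝ) / L)) * Real.exp ((j : ℝ) / L)) * (T / a) *
        (1 / L ^ 20) * (3 * L) * (1 / (ε * T)) := by ring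
    _ = _ := by
        rw [h2]
        field_simp

/-- The size of `D`, crude. -/
theorem Dp_crude (hB : BASXStatement) {ε η T : ℝ} (hT : 3 ≤ T) (hη : 0 < η) (hε : 0 < ε) (t : ℝ) :
    ‖Dp ε η T t‖ ≤ (T / ε) ^ 2 := by
  unfold Dp
  have hTε : 0 < T / ε := by positivity
  calc ‖∑ n ∈ Finset.Ioc ⌊ε * T⌋₊ ⌊T / ε⌋₊, (ff η T n : ℂ) * (n : ℂ) ^ (-(1 + t * I : ℂ))‖
      ≤ ∑ n ∈ Finset.Ioc ⌊ε * T⌋₊ ⌊T / ε⌋₊,
        ‖(ff η T n : ℂ) * (n : ℂ) ^ (-(1 + t * I : ℂ))‖ := norm_sum_le _ _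
    _ ≤ ∑ n ∈ Finset.Ioc ⌊ε * T⌋₊ ⌊T / ε⌋₊, T / ε := by
        refine Finset.sum_le_sum fun n hn => ?_
        rw [Finset.mem_Ioc] at hn
        have hn0 : 0 < n := by omega
        have hn1 : (1 : ℝ) ≤ n := by exact_mod_cast hn0
        have hnT : (n : ℝ) ≤ T / ε := (Nat.le_floor_iff hTε.le).1 hn.2
        have hf := hB.2.2.1 η T n hT hη
        have hbe := hB.2.1 n
        rw [norm_mul, Complex.norm_real, Real.norm_of_nonneg hf.1,
          Complex.norm_natCast_cpow_of_pos hn0]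
        have hre : (-(1 + t * I : ℂ)).re = -1 := by simp
        rw [hre, Real.rpow_neg_one]
        have hln : Real.log n ≤ n := (Real.log_le_sub_one_of_pos (by linarith)).trans (by linarith)
        have hln0 : 0 ≤ Real.log n := Real.log_nonneg hn1
        calc ff η T n * (n : ℝ)⁻¹ ≤ (n : ℝ) ^ 2 * (n : ℝ)⁻¹ := by
              gcongr
              calc ff η T n ≤ Real.log n ^ 2 := hf.2.trans hbe.2
                _ ≤ (n : ℝ) ^ 2 := by gcongr
          _ = n := by field_simp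
          _ ≤ T / ε := hnT
    _ ≤ (T / ε) ^ 2 := by
        rw [Finset.sum_const, nsmul_eq_mul, Nat.card_Ioc, sq]
        gcongr
        have h1 : ((⌊T / ε⌋₊ - ⌊ε * T⌋₊ : ℕ) : ℝ) ≤ (⌊T / ε⌋₊ : ℝ) := by
          exact_mod_cast Nat.sub_le _ _
        exact h1.trans (Nat.floor_le hTε.le)

/-- Everything for large `T`. -/
theorem ev_all (a ε η κ δ Ct C0 : ℝ) (K : ℕ) (ha : 0 < a) (hε : 0 < ε) (hη : 0 < η)
    (hδ : 0 < δ) :
    ∀ᶠ T : ℝ in atTop, 10 < T ∧ 1 ≤ Real.log T ∧ 230 ≤ Real.log (Real.log T) ∧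
      (nb (PB T) κ K : ℝ) ≤ Real.log T ∧ a ≤ ε * Real.log T ∧
      Real.log T ^ 3 * QQ (8 * (K + 2)) T ^ H78.kk T ≤ T ^ η ∧ Ct ≤ δ * Real.log T ∧
      C0 * ((T / ε) ^ 2) ^ 2 * (2 * T / a + 1) * Real.exp (-(a * T / 2)) ≤ 1 ∧
      Real.log T ≤ ε * T ∧ 4 / ε ≤ T ∧ a * Real.log T ^ 2 ≤ T := by
  have e1 : ∀ᶠ T : ℝ in atTop, C0 * ((T / ε) ^ 2) ^ 2 * (2 * T / a + 1) *
      Real.exp (-(a * T / 2)) ≤ 1 := by
    have b4 := (Real.tendsto_pow_mul_exp_neg_atTop_nhds_zero 4)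
    have b5 := (Real.tendsto_pow_mul_exp_neg_atTop_nhds_zero 5)
    have t1 : Tendsto (fun T : ℝ => a / 2 * T) atTop atTop :=
      tendsto_id.const_mul_atTop (by positivity)
    have c4 := (b4.comp t1).const_mul (C0 / ε ^ 4 * (2 / a) ^ 4)
    have c5 := (b5.comp t1).const_mul (C0 / ε ^ 4 * (2 / a) * (2 / a) ^ 5)
    have c6 := c4.add c5
    rw [mul_zero, mul_zero, add_zero] at c6
    filter_upwards [c6.eventually_lt_const (show (0 : ℝ) < 1 by norm_num)] with T hT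
    refine le_trans (le_of_eq ?_) hT.le
    simp only [Function.comp]
    have h1 : Real.exp (-(a * T / 2)) = Real.exp (-(a / 2 * T)) := by ring_nf
    rw [h1]
    field_simp
    ring
  have e2 : ∀ᶠ T : ℝ in atTop, ‖Real.log T ^ 1‖ ≤ ε * ‖(id T : ℝ)‖ :=
    (Real.isLittleO_pow_log_id_atTop (n := 1)).bound hε
  have e3 : ∀ᶠ T : ℝ in atTop, ‖Real.log T ^ 2‖ ≤ (1 / a) * ‖(id T : ℝ)‖ :=
    (Real.isLittleO_pow_log_id_atTop (n := 2)).bound (by positivity)
  have e4 : ∀ᶠ T : ℝ in atTop, (nb (PB T) κ K : ℝ) ≤ Real.log T := by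
    have a1 : Tendsto (fun x : ℝ => Real.log x / x) atTop (𝓝 0) := by
      have := Real.tendsto_pow_log_div_mul_add_atTop 1 0 1 one_ne_zero
      simpa using this
    have a2 : Tendsto (fun x : ℝ => 1 / x) atTop (𝓝 0) := by
      simpa using tendsto_inv_atTop_zero (𝕜 := ℝ)
    have a3 := (a1.const_mul (16 * |(K : ℝ) / κ|)).add a2
    rw [mul_zero, add_zero] at a3
    filter_upwards [H78.tt2.eventually (a3.eventually_lt_const (show (0 : ℝ) < 1 by norm_num)),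
      H78.ev_lL 1, H78.ev_L 1] with T h1 h2 h3
    set x := Real.log (Real.log T) with hx
    have hx0 : 0 < x := by linarith
    have hxL : x ≤ Real.log T := (Real.log_le_sub_one_of_pos (by linarith)).trans (by linarith)
    have h4 : Real.log (PB T) = 16 * Real.log x := by
      unfold PB
      rw [Real.log_pow, ← hx]
      norm_num
    have hlx : 0 ≤ Real.log x := Real.log_nonneg h2
    have h5 : 16 * |(K : ℝ) / κ| * Real.log x + 1 < x := by
      have h6 : (16 * |(K : ℝ) / κ| * (Real.log x / x) + 1 / x) * x < 1 * x :=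
        mul_lt_mul_of_pos_right h1 hx0
      have h7 : (16 * |(K : ℝ) / κ| * (Real.log x / x) + 1 / x) * x =
          16 * |(K : ℝ) / κ| * Real.log x + 1 := by field_simp
      linarith
    unfold nb
    have h8 : (⌈(K : ℝ) * Real.log (PB T) / κ⌉₊ : ℝ) ≤ |(K : ℝ) / κ| * (16 * Real.log x) + 1 := by
      have h9 : (K : ℝ) * Real.log (PB T) / κ ≤ |(K : ℝ) / κ| * (16 * Real.log x) := by
        rw [h4]
        calc (K : ℝ) * (16 * Real.log x) / κ = (K : ℝ) / κ * (16 * Real.log x) := by ring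
          _ ≤ _ := by gcongr; exact le_abs_self _
      refine (Nat.cast_le.2 (Nat.ceil_le_ceil h9)).trans ?_
      exact (Nat.ceil_lt_add_one (by positivity)).le
    linarith
  filter_upwards [eventually_gt_atTop (10 : ℝ), H78.ev_L 1, H78.ev_lL 230, e4, H78.ev_L (a / ε),
    H78.ev_QQk (8 * (K + 2)) 3 η hη, H78.ev_L (Ct / δ), e1, e2, eventually_ge_atTop (4 / ε), e3]
    with T h1 h2 h3 h4 h5 h6 h7 h8 h9 h10 h11
  rw [Real.norm_of_nonneg (by positivity), id, Real.norm_of_nonneg (by linarith)] at h9 h11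
  refine ⟨h1, h2, h3, h4, ?_, h6, ?_, h8, by simpa using h9, h10, ?_⟩
  · rw [div_le_iff₀ hε] at h5
    linarith
  · rw [div_le_iff₀ hδ] at h7
    linarith
  · rw [div_mul_eq_mul_div, one_mul, le_div_iff₀ ha] at h11
    linarith

end Pool.Agent.Lib.MP_6bc78b_nt.GP.H68
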